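import Pool.Agent.Q238.DP.Main

/-!
# Diameter rigidity for the Liouville equation

For every `C²` solution `u` of `Δu + e^{2u} = 0` on the plane, bounded above or not, the diameter of
the plane for the length distance of the metric `e^{2u}|dz|²` is at least `π`, and it equals `π`
exactly when `u` is radial about a point or one-dimensional.

Idea of the proof. A developing map `f = b / a` with `e^u = 2|f'|/(1+|f|²)` exists on the plane, and
`P` (its composition with the inverse stereographic projection) is a local isometry into the unit
sphere. For every `z` take the largest open cap (of radius at most `π/2`) around `P z` over which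
`P` has a section through `z`; a boundary point of the cap at which the section tends to infinity is
called singular. If the diameter is at most `π` then a section over a cap of radius larger than
`π/2` forces `f` to be a Möbius map (`u` is radial), and two singular points of one cap are
antipodal: otherwise the lift of an arc joining them separates the plane, and by a
Phragmén-Lindelöf argument both sides contain points far away from it. Moving away from the
singular point increases the radius of the cap up to `π/2`; it follows that there is one pair of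
antipodal points which contains a singular point of every cap, hence `f` is (after a rotation) the
exponential of a map which covers the plane, which is affine, and `u` is one-dimensional.
-/

set_option autoImplicit false

open MeasureTheory InnerProductSpace Laplacian Topology Filter Set Metric
open scoped ContDiff ENNReal

namespace Pool.Agent.Results.MP_47dd70_an.DiameterRigidity

/-- continuous, piecewise `C¹` curves `γ : [0,1] → ℂ = ℝ²` -/
def PiecewiseC1 (γ : ℝ → ℂ) : Prop :=
  ContinuousOn γ (Icc 0 1) ∧ ∃ (n : ℕ) (t : ℕ → ℝ), Monotone t ∧ t 0 = 0 ∧ t n = 1 ∧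
    ∀ i < n, t i < t (i + 1) → ContDiffOn ℝ 1 γ (Icc (t i) (t (i + 1)))

/-- the length of `γ` for the metric `e^{2u}|dz|²` -/
noncomputable def glength (u : ℂ → ℝ) (γ : ℝ → ℂ) : ℝ :=
  ∫ t in (0:ℝ)..1, Real.exp (u (γ t)) * ‖deriv γ t‖

/-- the distance of `x` and `y` for the metric `e^{2u}|dz|²` -/
noncomputable def gdist (u : ℂ → ℝ) (x y : ℂ) : ℝ≥0∞ :=
  ⨅ (γ : ℝ → ℂ) (_ : PiecewiseC1 γ ∧ γ 0 = x ∧ γ 1 = y), ENNReal.ofReal (glength u γ)

/-- the diameter of the plane for the metric `e^{2u}|dz|²` -/
noncomputable def gdiam (u : ℂ → ℝ) : ℝ≥0∞ := ⨆ (x : ℂ) (y : ℂ), gdist u x y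

/-- `u` is radial about some point -/
def Radial (u : ℂ → ℝ) : Prop := ∃ (x₀ : ℂ) (φ : ℝ → ℝ), ∀ x, u x = φ ‖x - x₀‖

/-- `u` is one-dimensional -/
def OneDim (u : ℂ → ℝ) : Prop := ∃ (e : ℂ) (f : ℝ → ℝ), ‖e‖ = 1 ∧ ∀ x, u x = f (inner ℝ x e)

/-- **Theorem.** Let `u` be a `C²` solution of `Δu + e^{2u} = 0` on the plane. Then the diameter of
the plane for `e^{2u}|dz|²` is at least `π`, with equality if and only if `u` is radial about some
point or one-dimensional. -/
theorem result (u : ℂ → ℝ) (hu : ContDiff ℝ 2 u)
    (hsol : ∀ z, (Δ u) z + Real.exp (2 * u z) = 0) :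
    ENNReal.ofReal Real.pi ≤ gdiam u ∧
      (gdiam u = ENNReal.ofReal Real.pi ↔ Radial u ∨ OneDim u) :=
  Pool.Agent.Q238.DP.main u ⟨hu, hsol⟩

end Pool.Agent.Results.MP_47dd70_an.DiameterRigidity
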